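import Pool.Agent.Helper46.FG.Neg

/-!
# The host system: parity and minimality of the designated cycles
-/

namespace Pool.Agent.Helper46.FG

open Finset

section Cyc

variable {V : Type*} [DecidableEq V]

/-- The edges of a cycle at a vertex. -/
theorem star_eq {n : ℕ} (hn : 3 ≤ n) {c : ZMod n → V} (hc : Function.Injective c)
    {F : Finset (Sym2 V)} (hF : ∀ e, e ∈ F ↔ ∃ i, e = s(c i, c (i + 1))) (j : ZMod n) :
    F.filter (fun e => c j ∈ e) = {s(c j, c (j + 1)), s(c (j - 1), c j)} := by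
  ext e
  rw [Finset.mem_filter, Finset.mem_insert, Finset.mem_singleton, hF]
  constructor
  · rintro ⟨⟨i, rfl⟩, hj⟩
    rcases Sym2.mem_iff.1 hj with h | h
    · left; rw [hc h]
    · right
      have h1 : j = i + 1 := hc h
      rw [h1, add_sub_cancel_right]
  · rintro (rfl | rfl)
    · exact ⟨⟨j, rfl⟩, Sym2.mem_mk_left _ _⟩
    · exact ⟨⟨j - 1, by rw [sub_add_cancel]⟩, Sym2.mem_mk_right _ _⟩

theorem star_card {n : ℕ} (hn : 3 ≤ n) {c : ZMod n → V} (hc : Function.Injective c)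
    {F : Finset (Sym2 V)} (hF : ∀ e, e ∈ F ↔ ∃ i, e = s(c i, c (i + 1))) (j : ZMod n) :
    (F.filter (fun e => c j ∈ e)).card = 2 := by
  rw [star_eq hn hc hF]
  apply Finset.card_pair
  intro h
  have h1 := edge_inj hn hc (a₁ := j) (a₂ := j - 1) (by simpa using h)
  apply zmod_one_ne hn
  linear_combination h1

theorem star_empty {n : ℕ} {c : ZMod n → V}
    {F : Finset (Sym2 V)} (hF : ∀ e, e ∈ F ↔ ∃ i, e = s(c i, c (i + 1))) {v : V}
    (hv : ∀ j, v ≠ c j) : F.filter (fun e => v ∈ e) = ∅ := by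
  rw [Finset.filter_eq_empty_iff]
  intro e he hve
  obtain ⟨i, rfl⟩ := (hF e).1 he
  rcases Sym2.mem_iff.1 hve with h | h
  · exact hv _ h
  · exact hv _ h

theorem star_even {n : ℕ} (hn : 3 ≤ n) {c : ZMod n → V} (hc : Function.Injective c)
    {F : Finset (Sym2 V)} (hF : ∀ e, e ∈ F ↔ ∃ i, e = s(c i, c (i + 1))) (v : V) :
    Even (F.filter (fun e => v ∈ e)).card := by
  by_cases hv : ∃ j, v = c j
  · obtain ⟨j, rfl⟩ := hv
    rw [star_card hn hc hF]
    exact even_two
  · push Not at hv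
    rw [star_empty hF hv]
    simp

theorem star_le {n : ℕ} (hn : 3 ≤ n) {c : ZMod n → V} (hc : Function.Injective c)
    {F : Finset (Sym2 V)} (hF : ∀ e, e ∈ F ↔ ∃ i, e = s(c i, c (i + 1))) (v : V) :
    (F.filter (fun e => v ∈ e)).card ≤ 2 := by
  by_cases hv : ∃ j, v = c j
  · obtain ⟨j, rfl⟩ := hv
    rw [star_card hn hc hF]
  · push Not at hv
    rw [star_empty hF hv]
    simp

/-- A nonempty even set of edges of a cycle is the whole cycle. -/
theorem even_min {n : ℕ} (hn : 3 ≤ n) {c : ZMod n → V} (hc : Function.Injective c)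
    {F U : Finset (Sym2 V)} (hF : ∀ e, e ∈ F ↔ ∃ i, e = s(c i, c (i + 1))) (hU : U ⊆ F)
    (hne : U.Nonempty) (hev : ∀ v, Even (U.filter (fun e => v ∈ e)).card) : U = F := by
  haveI : NeZero n := ⟨by omega⟩
  obtain ⟨e, he⟩ := hne
  obtain ⟨t0, rfl⟩ := (hF e).1 (hU he)
  have step : ∀ t, s(c t, c (t + 1)) ∈ U → s(c (t + 1), c (t + 1 + 1)) ∈ U := by
    intro t ht
    by_contra hno
    have h1 : U.filter (fun e => c (t + 1) ∈ e) = {s(c t, c (t + 1))} := by
      ext e
      rw [Finset.mem_filter, Finset.mem_singleton]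
      constructor
      · rintro ⟨heU, hve⟩
        have h2 : e ∈ F.filter (fun e => c (t + 1) ∈ e) := Finset.mem_filter.2 ⟨hU heU, hve⟩
        rw [star_eq hn hc hF, Finset.mem_insert, Finset.mem_singleton] at h2
        rcases h2 with h2 | h2
        · exact absurd (h2 ▸ heU) hno
        · rw [h2, add_sub_cancel_right]
      · rintro rfl
        exact ⟨ht, Sym2.mem_mk_right _ _⟩
    have h3 := hev (c (t + 1))
    rw [h1] at h3
    simp at h3
  have all : ∀ k : ℕ, s(c (t0 + k), c (t0 + k + 1)) ∈ U := by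
    intro k
    induction k with
    | zero => simpa using he
    | succ k ih =>
      have := step _ ih
      push_cast
      rw [← add_assoc]
      exact this
  apply Finset.Subset.antisymm hU
  intro e he
  obtain ⟨t, rfl⟩ := (hF e).1 he
  have h := all (t - t0).val
  rw [ZMod.natCast_val, ZMod.cast_id', id, add_sub_cancel] at h
  exact h

end Cyc

/-- The designated cycles are cycles. -/
theorem Dc_cyc {s N i : ℕ} (hs : 2 ≤ s) (hN : s + 2 ≤ N) (hi : i < N) :
    ∃ n : ℕ, 3 ≤ n ∧ ∃ c : ZMod n → Nm, Function.Injective c ∧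
      ∀ e, e ∈ Dc s N i ↔ ∃ j, e = s(c j, c (j + 1)) := by
  classical
  set n := 2 * cnum s N i with hn
  have hn4 : 4 ≤ n := by have := cnum_two hs hN hi; omega
  haveI : NeZero n := ⟨by omega⟩
  have hsucc : ∀ t : ZMod n, (t + 1).val = (t.val + 1) % n := by
    intro t
    rw [ZMod.val_add, ZMod.val_one_eq_one_mod, Nat.mod_eq_of_lt (show 1 < n by omega)]
  refine ⟨n, by omega, fun t => cseq s N i t.val, ?_, ?_⟩
  · intro t t' h
    apply ZMod.val_injective n
    exact cseq_inj (ZMod.val_lt t) (ZMod.val_lt t') h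
  · intro e
    unfold Dc
    rw [Finset.mem_image]
    constructor
    · rintro ⟨t, ht, rfl⟩
      rw [Finset.mem_range] at ht
      refine ⟨(t : ZMod n), ?_⟩
      simp only [hsucc]
      rw [ZMod.val_natCast, Nat.mod_eq_of_lt (show t < n by omega)]
    · rintro ⟨t, rfl⟩
      refine ⟨t.val, Finset.mem_range.2 (ZMod.val_lt t), ?_⟩
      simp only [hsucc]
      rfl

theorem Dc_even {s N i : ℕ} (hs : 2 ≤ s) (hN : s + 2 ≤ N) (hi : i < N) (v : Nm) :
    Even ((Dc s N i).filter (fun e => v ∈ e)).card := by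
  obtain ⟨n, hn, c, hc, hF⟩ := Dc_cyc hs hN hi
  exact star_even hn hc hF v

theorem Dc_star_le {s N i : ℕ} (hs : 2 ≤ s) (hN : s + 2 ≤ N) (hi : i < N) (v : Nm) :
    ((Dc s N i).filter (fun e => v ∈ e)).card ≤ 2 := by
  obtain ⟨n, hn, c, hc, hF⟩ := Dc_cyc hs hN hi
  exact star_le hn hc hF v

theorem Dc_min {s N i : ℕ} (hs : 2 ≤ s) (hN : s + 2 ≤ N) (hi : i < N) {U : Finset (Sym2 Nm)}
    (hU : U ⊆ Dc s N i) (hne : U.Nonempty) (hev : ∀ v, Even (U.filter (fun e => v ∈ e)).card) :
    U = Dc s N i := by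
  obtain ⟨n, hn, c, hc, hF⟩ := Dc_cyc hs hN hi
  exact even_min hn hc hF hU hne hev

/-- At most `2 s` edges of the host system at each name. -/
theorem host_star {s : ℕ} (hs : 2 ≤ s) (v : Nm) (U : Finset (Sym2 Nm))
    (hU : ∀ e ∈ U, v ∈ e ∧ ∃ N i, s + 2 ≤ N ∧ i < N ∧ e ∈ Dc s N i) : U.card ≤ 2 * s := by
  classical
  -- all edges are in the block of v
  set J : Finset ℕ := (range v.1).filter (fun i => On v (Dc s v.1 i)) with hJ
  have h1 : U ⊆ J.biUnion (fun i => (Dc s v.1 i).filter (fun e => v ∈ e)) := by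
    intro e he
    obtain ⟨hv, N, i, hN, hi, heD⟩ := hU e he
    have hvN : v.1 = N := Dc_block heD hv
    subst hvN
    refine Finset.mem_biUnion.2 ⟨i, Finset.mem_filter.2 ⟨Finset.mem_range.2 hi, e, heD, hv⟩,
      Finset.mem_filter.2 ⟨heD, hv⟩⟩
  have h2 : J.card ≤ s := on_Dc_card (by omega) v J (fun i hi => (Finset.mem_filter.1 hi).2)
  by_cases hN : s + 2 ≤ v.1
  · have h3 := Finset.card_le_card h1
    have h4 : (J.biUnion (fun i => (Dc s v.1 i).filter (fun e => v ∈ e))).card ≤ J.card * 2 := by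
      apply Finset.card_biUnion_le_card_mul
      intro i hi
      exact Dc_star_le hs hN (Finset.mem_range.1 (Finset.mem_filter.1 hi).1) v
    omega
  · have h3 : U = ∅ := by
      rw [Finset.eq_empty_iff_forall_notMem]
      intro e he
      obtain ⟨hv, N, i, hN', hi, heD⟩ := hU e he
      have hvN : v.1 = N := Dc_block heD hv
      omega
    rw [h3]; simp

end Pool.Agent.Helper46.FG
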